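import Pool.Agent.H71.SN.Odd

open CategoryTheory MonoidalCategory

set_option linter.unusedSectionVars false

namespace Pool.Agent.H8.NP

open Pool.Agent.H71.SN

universe v u

section defs

variable {C : Type u} [Category.{v} C] [MonoidalCategory C]

/-- The tensor product `P 0 ⊗ (P 1 ⊗ (⋯ ⊗ 𝟙))` of the first `n` objects of a sequence. -/
def tfam (P : ℕ → C) : ℕ → C
  | 0 => 𝟙_ C
  | n + 1 => P 0 ⊗ tfam (fun i => P (i + 1)) n

/-- The exterior product `x 0 ⊗ (x 1 ⊗ ⋯)` of the first `n` members of a sequence of morphisms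
with target `A`. -/
def mfam {A : C} {P : ℕ → C} (x : ∀ i, P i ⟶ A) : (n : ℕ) → (tfam P n ⟶ tpow A n)
  | 0 => 𝟙 (𝟙_ C)
  | n + 1 => x 0 ⊗ₘ mfam (fun i => x (i + 1)) n

/-- contraction of the first tensor factor with `g : A ⟶ 𝟙` -/
def con {A : C} (g : A ⟶ 𝟙_ C) (T : C) : A ⊗ T ⟶ T := g ▷ T ≫ (λ_ T).hom

variable [Preadditive C] [BraidedCategory C]

/-- The sum over `k = 0, …, n` of `s ^ k` times the permutation of `A^{⊗(n+1)}` which moves the
first factor to the place `k` and keeps the order of the other factors. -/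
def insS (s : ℤ) (A : C) : (n : ℕ) → (tpow A (n + 1) ⟶ tpow A (n + 1))
  | 0 => 𝟙 _
  | n + 1 => 𝟙 _ + s • (swapL A A (tpow A n) ≫ A ◁ insS s A n)

/-- For `s = 1` the sum of all `n!` permutations of the tensor factors of `A^{⊗n}`, for `s = -1`
the alternating sum (the permutation `σ` with the coefficient `sign σ`). -/
def psum (s : ℤ) (A : C) : (n : ℕ) → (tpow A n ⟶ tpow A n)
  | 0 => 𝟙 _
  | n + 1 => A ◁ psum s A n ≫ insS s A n

/-- the (signed) sum of the insertions of `b` at all places -/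
def insA (s : ℤ) {A : C} (b : 𝟙_ C ⟶ A) : (n : ℕ) → (tpow A n ⟶ tpow A (n + 1))
  | 0 => ins b (𝟙_ C)
  | n + 1 => ins b (tpow A (n + 1)) + s • (A ◁ insA s b n)

end defs

section basic

variable {C : Type u} [Category.{v} C] [MonoidalCategory C]

theorem con_naturality {A S T : C} (g : A ⟶ 𝟙_ C) (h : S ⟶ T) :
    A ◁ h ≫ con g T = con g S ≫ h := by
  unfold con
  rw [whisker_exchange_assoc, leftUnitor_naturality, Category.assoc]

theorem tensorHom_con {A Q S T : C} (g : A ⟶ 𝟙_ C) (x : Q ⟶ A) (h : S ⟶ T) :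
    (x ⊗ₘ h) ≫ con g T = con (x ≫ g) S ≫ h := by
  rw [MonoidalCategory.tensorHom_def, Category.assoc, con_naturality]
  unfold con
  rw [comp_whiskerRight]
  simp only [Category.assoc]

theorem ins_con {A T : C} (b : 𝟙_ C ⟶ A) (g : A ⟶ 𝟙_ C) (h : b ≫ g = 𝟙 _) :
    ins b T ≫ con g T = 𝟙 T := by
  unfold ins con
  rw [Category.assoc, ← comp_whiskerRight_assoc, h]
  simp

theorem emul_ins {A S T : C} (b : 𝟙_ C ⟶ A) (w : S ⟶ T) :
    (λ_ S).inv ≫ (b ⊗ₘ w) = w ≫ ins b T := by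
  rw [ins_naturality]
  unfold ins
  rw [MonoidalCategory.tensorHom_def, Category.assoc]

theorem con_zero [Preadditive C] [MonoidalPreadditive C] {A : C} (T : C) :
    con (0 : A ⟶ 𝟙_ C) T = 0 := by
  unfold con
  rw [MonoidalPreadditive.zero_whiskerRight, Limits.zero_comp]

theorem whiskerLeft_zsmul' [Preadditive C] [MonoidalPreadditive C] (X : C) {Y Z : C} (c : ℤ)
    (f : Y ⟶ Z) : X ◁ (c • f) = c • (X ◁ f) :=
  map_zsmul (AddMonoidHom.mk' (fun g : Y ⟶ Z => X ◁ g)
    (fun a b => MonoidalPreadditive.whiskerLeft_add a b)) c f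

variable [BraidedCategory C]

theorem swapL_con {A B T : C} (g : A ⟶ 𝟙_ C) :
    swapL B A T ≫ con g (B ⊗ T) = B ◁ con g T := by
  unfold swapL con
  have h : (β_ B A).hom ≫ g ▷ B = B ◁ g ≫ (β_ B (𝟙_ C)).hom := by
    rw [BraidedCategory.braiding_naturality_right]
  simp only [Category.assoc]
  have h2 : (α_ A B T).hom ≫ g ▷ (B ⊗ T) ≫ (λ_ (B ⊗ T)).hom =
      (g ▷ B) ▷ T ≫ (λ_ B).hom ▷ T := by
    simp
  rw [h2, ← comp_whiskerRight_assoc, h, comp_whiskerRight, Category.assoc]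
  rw [braiding_tensorUnit_right]
  simp

end basic

section main

variable {C : Type u} [Category.{v} C] [Preadditive C] [MonoidalCategory C] [BraidedCategory C]
  [MonoidalPreadditive C] {A : C} {s : ℤ}

theorem ins_insS (b : 𝟙_ C ⟶ A) (n : ℕ) :
    ins b (tpow A n) ≫ insS s A n = insA s b n := by
  induction n with
  | zero => exact Category.comp_id _
  | succ n ih =>
    change ins b (A ⊗ tpow A n) ≫ (𝟙 _ + s • (swapL A A (tpow A n) ≫ A ◁ insS s A n)) =
      ins b (A ⊗ tpow A n) + s • (A ◁ insA s b n)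
    rw [Preadditive.comp_add, Category.comp_id, Preadditive.comp_zsmul, ← Category.assoc,
      ins_swapL, ← MonoidalCategory.whiskerLeft_comp, ih]

theorem ins_psum (b : 𝟙_ C ⟶ A) (n : ℕ) :
    ins b (tpow A n) ≫ psum s A (n + 1) = psum s A n ≫ insA s b n := by
  change ins b (tpow A n) ≫ A ◁ psum s A n ≫ insS s A n = _
  rw [← Category.assoc, ← ins_naturality, Category.assoc, ins_insS]

theorem insA_con_zero (b : 𝟙_ C ⟶ A) (g : A ⟶ 𝟙_ C) (h : b ≫ g = 𝟙 _) :
    insA s b 0 ≫ con g (tpow A 0) = 𝟙 _ := ins_con b g h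

theorem insA_con_succ (b : 𝟙_ C ⟶ A) (g : A ⟶ 𝟙_ C) (h : b ≫ g = 𝟙 _) (n : ℕ) :
    insA s b (n + 1) ≫ con g (tpow A (n + 1)) =
      𝟙 _ + s • (con g (tpow A n) ≫ insA s b n) := by
  change (ins b (tpow A (n + 1)) + s • (A ◁ insA s b n)) ≫ con g (tpow A (n + 1)) = _
  rw [Preadditive.add_comp, ins_con b g h, Preadditive.zsmul_comp, con_naturality]

/-- the partial contraction of the (signed) permutation sum vanishes on products of elements
killed by `g` -/
theorem mfam_psum_con (g : A ⟶ 𝟙_ C) (n : ℕ) : ∀ {P : ℕ → C} (x : ∀ i, P i ⟶ A),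
    (∀ i, x i ≫ g = 0) → mfam x (n + 1) ≫ psum s A (n + 1) ≫ con g (tpow A n) = 0 := by
  induction n with
  | zero =>
    intro P x hx
    change (x 0 ⊗ₘ 𝟙 (𝟙_ C)) ≫ (A ◁ 𝟙 (𝟙_ C) ≫ 𝟙 (A ⊗ 𝟙_ C)) ≫ con g (𝟙_ C) = 0
    rw [Category.comp_id, MonoidalCategory.whiskerLeft_id, Category.id_comp, tensorHom_con, hx,
      con_zero, Limits.zero_comp]
  | succ n ih =>
    intro P x hx
    set w : tfam (fun i => P (i + 1)) (n + 1) ⟶ tpow A (n + 1) :=
      mfam (fun i => x (i + 1)) (n + 1) ≫ psum s A (n + 1) with hw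
    have h1 : mfam x (n + 1 + 1) ≫ A ◁ psum s A (n + 1) = x 0 ⊗ₘ w := by
      change (x 0 ⊗ₘ mfam (fun i => x (i + 1)) (n + 1)) ≫ A ◁ psum s A (n + 1) = _
      rw [← MonoidalCategory.id_tensorHom, MonoidalCategory.tensorHom_comp_tensorHom,
        Category.comp_id]
    have h2 : w ≫ con g (tpow A n) = 0 := by
      rw [hw, Category.assoc]
      exact ih (fun i => x (i + 1)) (fun i => hx (i + 1))
    change mfam x (n + 1 + 1) ≫ (A ◁ psum s A (n + 1) ≫ insS s A (n + 1)) ≫
      con g (tpow A (n + 1)) = 0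
    rw [Category.assoc, ← Category.assoc, h1]
    change (x 0 ⊗ₘ w) ≫ (𝟙 _ + s • (swapL A A (tpow A n) ≫ A ◁ insS s A n)) ≫
      con g (tpow A (n + 1)) = 0
    rw [Preadditive.add_comp, Preadditive.comp_add, Category.id_comp, tensorHom_con, hx 0,
      con_zero, Limits.zero_comp, zero_add, Preadditive.zsmul_comp, Preadditive.comp_zsmul,
      Category.assoc, con_naturality]
    have h3 : swapL A A (tpow A n) ≫ con g (A ⊗ tpow A n) ≫ insS s A n =
        A ◁ con g (tpow A n) ≫ insS s A n := by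
      rw [← Category.assoc, swapL_con]
    have h4 : (x 0 ⊗ₘ w) ≫ A ◁ con g (tpow A n) = 0 := by
      rw [← MonoidalCategory.id_tensorHom, MonoidalCategory.tensorHom_comp_tensorHom, h2,
        MonoidalPreadditive.tensor_zero]
    have h5 : (x 0 ⊗ₘ w) ≫ swapL A A (tpow A n) ≫ con g (A ⊗ tpow A n) ≫ insS s A n = 0 := by
      rw [h3, ← Category.assoc, h4, Limits.zero_comp]
    exact (congrArg (fun z => s • z) h5).trans (smul_zero s)

/-- one step of the descent -/
theorem descent_step (b : 𝟙_ C ⟶ A) (g : A ⟶ 𝟙_ C) (h : b ≫ g = 𝟙 _) (N : ℕ)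
    {P : ℕ → C} (x : ∀ i, P i ⟶ A) (hx : ∀ i, x i ≫ g = 0)
    (hN : mfam x N ≫ ins b (tpow A N) ≫ psum s A (N + 1) = 0) :
    mfam x N ≫ psum s A N = 0 := by
  rw [ins_psum] at hN
  have h1 : mfam x N ≫ psum s A N ≫ insA s b N ≫ con g (tpow A N) = 0 := by
    have := congrArg (· ≫ con g (tpow A N)) hN
    simpa only [Category.assoc, Limits.zero_comp] using this
  cases N with
  | zero =>
    rw [insA_con_zero b g h, Category.comp_id] at h1
    exact h1
  | succ n =>
    rw [insA_con_succ b g h, Preadditive.comp_add, Preadditive.comp_add, Category.comp_id,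
      Preadditive.comp_zsmul, Preadditive.comp_zsmul] at h1
    have h2 : mfam x (n + 1) ≫ psum s A (n + 1) ≫ con g (tpow A n) ≫ insA s b n = 0 := by
      have := congrArg (· ≫ insA s b n) (mfam_psum_con (s := s) g n x hx)
      simpa only [Category.assoc, Limits.zero_comp] using this
    rw [h2, smul_zero, add_zero] at h1
    exact h1

end main

end Pool.Agent.H8.NP
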