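import Pool.Agent.H8.NP.Asym

open CategoryTheory MonoidalCategory

set_option linter.unusedSectionVars false

namespace Pool.Agent.H8.NP

open Pool.Agent.H71.SN

universe v u

section desc

variable {C : Type u} [Category.{v} C] [Preadditive C] [MonoidalCategory C] [BraidedCategory C]
  [MonoidalPreadditive C] {A : C} {s : ℤ}

/-- putting one more object in front -/
def consO (Q : C) (P : ℕ → C) : ℕ → C
  | 0 => Q
  | i + 1 => P i

/-- putting one more morphism in front -/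
def consM {Q : C} {P : ℕ → C} (y : Q ⟶ A) (x : ∀ i, P i ⟶ A) : ∀ i, consO Q P i ⟶ A
  | 0 => y
  | i + 1 => x i

theorem descent (d ρ : ℕ) (hA : psum s A (d + 1) = 0)
    (b : Fin ρ → (𝟙_ C ⟶ A)) (g : Fin ρ → (A ⟶ 𝟙_ C))
    (hbg : ∀ i j, b i ≫ g j = if i = j then 𝟙 _ else 0) (j : ℕ) (hj : j ≤ ρ) :
    ∀ m, m + j = d + 1 → ∀ {P : ℕ → C} (x : ∀ i, P i ⟶ A),
      (∀ i, ∀ k : Fin ρ, k.val < j → x i ≫ g k = 0) → mfam x m ≫ psum s A m = 0 := by
  induction j with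
  | zero =>
    intro m hm P x _
    have : m = d + 1 := by omega
    subst this
    rw [hA, Limits.comp_zero]
  | succ j ih =>
    intro m hm P x hx
    have hjρ : j < ρ := by omega
    have h1 := ih (by omega) (m + 1) (by omega) (consM (b ⟨j, hjρ⟩) x) (by
      intro i k hk
      cases i with
      | zero =>
        change b ⟨j, hjρ⟩ ≫ g k = 0
        rw [hbg, if_neg]
        intro h
        rw [← h] at hk
        exact absurd hk (lt_irrefl _)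
      | succ i =>
        change x i ≫ g k = 0
        exact hx i k (by omega))
    have h2 : (b ⟨j, hjρ⟩ ⊗ₘ mfam x m) ≫ psum s A (m + 1) = 0 := h1
    refine descent_step (b ⟨j, hjρ⟩) (g ⟨j, hjρ⟩) (by rw [hbg, if_pos rfl]) m x
      (fun i => hx i ⟨j, hjρ⟩ (Nat.lt_succ_self j)) ?_
    rw [← Category.assoc, ← emul_ins, Category.assoc, h2, Limits.comp_zero]

theorem rho_le (d ρ : ℕ) (hA : psum s A (d + 1) = 0) (h1 : 𝟙 (𝟙_ C) ≠ 0)
    (b : Fin ρ → (𝟙_ C ⟶ A)) (g : Fin ρ → (A ⟶ 𝟙_ C))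
    (hbg : ∀ i j, b i ≫ g j = if i = j then 𝟙 _ else 0) : ρ ≤ d := by
  by_contra hcon
  have h2 := descent d ρ hA b g hbg (d + 1) (by omega) 0 (by omega)
    (P := fun _ => 𝟙_ C) (fun _ => (0 : 𝟙_ C ⟶ A)) (fun i k _ => Limits.zero_comp)
  apply h1
  change 𝟙 (𝟙_ C) ≫ 𝟙 (𝟙_ C) = 0 at h2
  simpa using h2

end desc

section pow

variable {C : Type u} [Category.{v} C] [Preadditive C] [MonoidalCategory C] [BraidedCategory C]
  [MonoidalPreadditive C] {A : C} {s : ℤ}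

theorem zsmul_tensor' {X Y Z W : C} (c : ℤ) (f : X ⟶ Y) (g : Z ⟶ W) :
    (c • f) ⊗ₘ g = c • (f ⊗ₘ g) :=
  map_zsmul (AddMonoidHom.mk' (fun f : X ⟶ Y => f ⊗ₘ g)
    (fun a b => MonoidalPreadditive.add_tensor a b g)) c f

theorem zsmul_whiskerRight' {X Y : C} (c : ℤ) (f : X ⟶ Y) (Z : C) :
    (c • f) ▷ Z = c • (f ▷ Z) :=
  map_zsmul (AddMonoidHom.mk' (fun f : X ⟶ Y => f ▷ Z)
    (fun a b => MonoidalPreadditive.add_whiskerRight a b)) c f

theorem swapL_scalar {P : C} (hP : (β_ P P).hom = s • 𝟙 _) (T : C) :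
    swapL P P T = s • 𝟙 _ := by
  unfold swapL
  rw [hP, zsmul_whiskerRight', Preadditive.zsmul_comp, Preadditive.comp_zsmul]
  simp

theorem mfam_insS {P : C} (hP : (β_ P P).hom = s • 𝟙 _) (hs : s * s = 1) (x : P ⟶ A) (n : ℕ) :
    mfam (P := fun _ => P) (fun _ => x) (n + 1) ≫ insS s A n =
      ((n + 1 : ℕ) : ℤ) • mfam (P := fun _ => P) (fun _ => x) (n + 1) := by
  induction n with
  | zero =>
    change _ ≫ 𝟙 _ = _
    rw [Category.comp_id]
    simp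
  | succ n ih =>
    set w := mfam (P := fun _ => P) (fun _ => x) n with hw
    change (x ⊗ₘ (x ⊗ₘ w)) ≫ (𝟙 _ + s • (swapL A A (tpow A n) ≫ A ◁ insS s A n)) =
      _ • (x ⊗ₘ (x ⊗ₘ w))
    have ih' : (x ⊗ₘ w) ≫ insS s A n = ((n + 1 : ℕ) : ℤ) • (x ⊗ₘ w) := ih
    have h1 : (x ⊗ₘ (x ⊗ₘ w)) ≫ A ◁ insS s A n =
        ((n + 1 : ℕ) : ℤ) • (x ⊗ₘ (x ⊗ₘ w)) := by
      rw [← MonoidalCategory.id_tensorHom, MonoidalCategory.tensorHom_comp_tensorHom, ih',
        Category.comp_id, tensor_zsmul]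
    have h2 : (x ⊗ₘ (x ⊗ₘ w)) ≫ swapL A A (tpow A n) = s • (x ⊗ₘ (x ⊗ₘ w)) := by
      rw [← swapL_tensorHom, swapL_scalar hP, Preadditive.zsmul_comp, Category.id_comp]
    rw [Preadditive.comp_add, Category.comp_id, Preadditive.comp_zsmul, ← Category.assoc, h2,
      Preadditive.zsmul_comp, h1, smul_smul, smul_smul, hs, one_mul]
    have key : ∀ X : (P ⊗ (P ⊗ tfam (fun _ => P) n) ⟶ A ⊗ (A ⊗ tpow A n)),
        X + ((n + 1 : ℕ) : ℤ) • X = ((n + 1 + 1 : ℕ) : ℤ) • X := by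
      intro X
      push_cast
      module
    exact key _

theorem mfam_psum {P : C} (hP : (β_ P P).hom = s • 𝟙 _) (hs : s * s = 1) (x : P ⟶ A) (n : ℕ) :
    mfam (P := fun _ => P) (fun _ => x) n ≫ psum s A n =
      ((n.factorial : ℕ) : ℤ) • mfam (P := fun _ => P) (fun _ => x) n := by
  induction n with
  | zero =>
    change _ ≫ 𝟙 _ = _
    rw [Category.comp_id]
    simp
  | succ n ih =>
    set w := mfam (P := fun _ => P) (fun _ => x) n with hw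
    change (x ⊗ₘ w) ≫ A ◁ psum s A n ≫ insS s A n = _ • (x ⊗ₘ w)
    have h1 : (x ⊗ₘ w) ≫ A ◁ psum s A n = ((n.factorial : ℕ) : ℤ) • (x ⊗ₘ w) := by
      rw [← MonoidalCategory.id_tensorHom, MonoidalCategory.tensorHom_comp_tensorHom, ih,
        Category.comp_id, tensor_zsmul]
    have h2 : (x ⊗ₘ w) ≫ insS s A n = ((n + 1 : ℕ) : ℤ) • (x ⊗ₘ w) :=
      mfam_insS hP hs x n
    rw [← Category.assoc, h1, Preadditive.zsmul_comp, h2, smul_smul]
    have hc : ((n.factorial : ℕ) : ℤ) * ((n + 1 : ℕ) : ℤ) = (((n + 1).factorial : ℕ) : ℤ) := by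
      rw [Nat.factorial_succ]
      push_cast
      ring
    exact congrArg (fun c : ℤ => c • (x ⊗ₘ w)) hc

end pow

section final

variable {F : Type*} [Field F] [CharZero F] {C : Type u} [Category.{v} C] [Preadditive C]
  [Linear F C] [MonoidalCategory C] [BraidedCategory C] [MonoidalPreadditive C]

theorem zsmul_hom_zero (F : Type*) [Field F] [CharZero F] [Linear F C] {X Y : C} {c : ℤ}
    (hc : c ≠ 0) {f : X ⟶ Y} (h : c • f = 0) : f = 0 := by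
  have h1 : ((c : F)) • f = 0 := by rw [Int.cast_smul_eq_zsmul]; exact h
  rcases smul_eq_zero.1 h1 with h2 | h2
  · exact absurd (Int.cast_eq_zero.1 h2) hc
  · exact h2

theorem main_asym (F : Type*) [Field F] [CharZero F] [Linear F C] (s : ℤ) (hs : s = 1 ∨ s = -1)
    (h1 : 𝟙 (𝟙_ C) ≠ 0)
    (P : ℕ → C) (hβ : ∀ n, (β_ (P n) (P n)).hom = ((-1 : ℤ) ^ n) • 𝟙 (P n ⊗ P n))
    (hP : ∀ n, 1 ≤ n → ∀ z : P n ⟶ 𝟙_ C, z = 0)
    (A : C) (d : ℕ) (hA : psum s A (d + 1) = 0) (ρ : ℕ)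
    (b : Fin ρ → (𝟙_ C ⟶ A)) (g : Fin ρ → (A ⟶ 𝟙_ C))
    (hbg : ∀ i j, b i ≫ g j = if i = j then 𝟙 _ else 0) :
    ρ ≤ d ∧
    (∀ (k : ℕ → ℕ) (x : ∀ i, P (k i) ⟶ A), (∀ i, 1 ≤ k i) →
      mfam x (d + 1 - ρ) ≫ psum s A (d + 1 - ρ) = 0) ∧
    (∀ n, 1 ≤ n → (-1) ^ n = s → ∀ x : P n ⟶ A,
      mfam (P := fun _ => P n) (fun _ => x) (d + 1 - ρ) = 0) := by
  have hρ := rho_le d ρ hA h1 b g hbg
  have h2 : ∀ (k : ℕ → ℕ) (x : ∀ i, P (k i) ⟶ A), (∀ i, 1 ≤ k i) →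
      mfam x (d + 1 - ρ) ≫ psum s A (d + 1 - ρ) = 0 := by
    intro k x hk
    exact descent d ρ hA b g hbg ρ le_rfl (d + 1 - ρ) (by omega) x
      (fun i j _ => hP (k i) (hk i) _)
  refine ⟨hρ, h2, ?_⟩
  intro n hn hns x
  have h3 := h2 (fun _ => n) (fun _ => x) (fun _ => hn)
  have hss : s * s = 1 := by rcases hs with rfl | rfl <;> norm_num
  have h4 := mfam_psum (A := A) (s := s) (P := P n) (by rw [hβ, hns]) hss x (d + 1 - ρ)
  rw [h4] at h3
  exact zsmul_hom_zero F (by exact_mod_cast Nat.factorial_ne_zero _) h3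

end final

end Pool.Agent.H8.NP
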